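import Pool.Agent.Helper9.MP.Lat

set_option autoImplicit false

namespace Pool.Agent.Helper96.MP

lemma tqm_mem {N Q : ℕ} (hN : 1 ≤ N) : Q ∈ UD N ↔ ∃ R : ℕ, N = Q * R ∧ Nat.Coprime Q R := by
  unfold UD
  rw [Finset.mem_filter, Nat.mem_divisors]
  constructor
  · rintro ⟨⟨⟨R, hR⟩, _⟩, hc⟩
    refine ⟨R, hR, ?_⟩
    have hQ : 0 < Q := by
      rcases Nat.eq_zero_or_pos Q with h | h
      · subst h; simp at hR; omega
      · exact h
    rwa [hR, Nat.mul_div_cancel_left _ hQ] at hc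
  · rintro ⟨R, hR, hc⟩
    have hQ : 0 < Q := by
      rcases Nat.eq_zero_or_pos Q with h | h
      · subst h; simp at hR; omega
      · exact h
    refine ⟨⟨⟨R, hR⟩, by omega⟩, ?_⟩
    rwa [hR, Nat.mul_div_cancel_left _ hQ]

/-- decomposition of `N` with respect to two exact divisors -/
lemma tqm_dec {N Q Q' : ℕ} (hN : 1 ≤ N) (hQ : Q ∈ UD N) (hQ' : Q' ∈ UD N) :
    ∃ g a b m : ℕ, 0 < g ∧ 0 < a ∧ 0 < b ∧ 0 < m ∧ N = g * a * b * m ∧ Q = g * a ∧ Q' = g * b ∧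
      Nat.gcd Q Q' = g ∧ Nat.Coprime g a ∧ Nat.Coprime g b ∧ Nat.Coprime g m ∧ Nat.Coprime a b ∧
      Nat.Coprime a m ∧ Nat.Coprime b m := by
  obtain ⟨R, hR, hc⟩ := (tqm_mem hN).1 hQ
  obtain ⟨R', hR', hc'⟩ := (tqm_mem hN).1 hQ'
  have h1 : Q' = Nat.gcd Q Q' * Nat.gcd R Q' := by
    have : Nat.gcd Q' (Q * R) = Q' := Nat.gcd_eq_left (by rw [← hR, hR']; exact dvd_mul_right _ _)
    rw [Nat.Coprime.gcd_mul Q' hc, Nat.gcd_comm Q' Q, Nat.gcd_comm Q' R] at this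
    exact this.symm
  have h2 : Q = Nat.gcd Q Q' * Nat.gcd Q R' := by
    have : Nat.gcd Q (Q' * R') = Q := Nat.gcd_eq_left (by rw [← hR', hR]; exact dvd_mul_right _ _)
    rw [Nat.Coprime.gcd_mul Q hc'] at this
    exact this.symm
  have h3 : R = Nat.gcd R Q' * Nat.gcd R R' := by
    have : Nat.gcd R (Q' * R') = R := Nat.gcd_eq_left (by rw [← hR', hR]; exact dvd_mul_left _ _)
    rw [Nat.Coprime.gcd_mul R hc'] at this
    exact this.symm
  have hQp : 0 < Q := by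
    rcases Nat.eq_zero_or_pos Q with h | h
    · subst h; simp at hR; omega
    · exact h
  have hRp : 0 < R := by
    rcases Nat.eq_zero_or_pos R with h | h
    · subst h; simp at hR; omega
    · exact h
  have hQp' : 0 < Q' := by
    rcases Nat.eq_zero_or_pos Q' with h | h
    · subst h; simp at hR'; omega
    · exact h
  have hgQ : Nat.gcd Q Q' ∣ Q := Nat.gcd_dvd_left _ _
  have hgQ' : Nat.gcd Q Q' ∣ Q' := Nat.gcd_dvd_right _ _
  have haQ : Nat.gcd Q R' ∣ Q := Nat.gcd_dvd_left _ _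
  have haR' : Nat.gcd Q R' ∣ R' := Nat.gcd_dvd_right _ _
  have hbR : Nat.gcd R Q' ∣ R := Nat.gcd_dvd_left _ _
  have hbQ' : Nat.gcd R Q' ∣ Q' := Nat.gcd_dvd_right _ _
  have hmR : Nat.gcd R R' ∣ R := Nat.gcd_dvd_left _ _
  have hmR' : Nat.gcd R R' ∣ R' := Nat.gcd_dvd_right _ _
  refine ⟨Nat.gcd Q Q', Nat.gcd Q R', Nat.gcd R Q', Nat.gcd R R', Nat.gcd_pos_of_pos_left _ hQp,
    Nat.gcd_pos_of_pos_left _ hQp, Nat.gcd_pos_of_pos_left _ hRp, Nat.gcd_pos_of_pos_left _ hRp,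
    ?_, h2, h1, rfl, ?_, ?_, ?_, ?_, ?_, ?_⟩
  · rw [← h2, mul_assoc, ← h3, ← hR]
  · exact Nat.Coprime.coprime_dvd_left hgQ' (Nat.Coprime.coprime_dvd_right haR' hc')
  · exact Nat.Coprime.coprime_dvd_left hgQ (Nat.Coprime.coprime_dvd_right hbR hc)
  · exact Nat.Coprime.coprime_dvd_left hgQ (Nat.Coprime.coprime_dvd_right hmR hc)
  · exact Nat.Coprime.coprime_dvd_left haQ (Nat.Coprime.coprime_dvd_right hbR hc)
  · exact Nat.Coprime.coprime_dvd_left haQ (Nat.Coprime.coprime_dvd_right hmR hc)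
  · exact Nat.Coprime.coprime_dvd_left hbQ' (Nat.Coprime.coprime_dvd_right hmR' hc')

lemma tqm_cx {g a b : ℕ} (hg : 0 < g) (h : Nat.gcd (g * a) (g * b) = g) :
    cx (g * a) (g * b) = a * b := by
  unfold cx
  rw [h]
  have : g * a * (g * b) = g ^ 2 * (a * b) := by ring
  rw [this, Nat.mul_div_cancel_left _ (by positivity)]

theorem st_TQM : ST_TQM := by
  intro N hN
  refine ⟨⟨?_, ?_⟩, ?_, ?_, ?_, ?_⟩
  · exact (tqm_mem hN).2 ⟨N, (one_mul N).symm, Nat.coprime_one_left N⟩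
  · intro Q hQ Q' hQ'
    obtain ⟨g, a, b, m, hg, ha, hb, hm, hN', hQe, hQe', hgcd, c1, c2, c3, c4, c5, c6⟩ :=
      tqm_dec hN hQ hQ'
    have hcx : cx Q Q' = a * b := by
      rw [hQe, hQe']
      rw [hQe, hQe'] at hgcd
      exact tqm_cx hg hgcd
    have hQp : 0 < Q := by rw [hQe]; positivity
    refine ⟨?_, ?_, ?_, ?_, ?_⟩
    · rw [hcx]
      refine (tqm_mem hN).2 ⟨g * m, by rw [hN']; ring, ?_⟩
      exact Nat.Coprime.mul_left (Nat.Coprime.mul_right c1.symm c5)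
        (Nat.Coprime.mul_right c2.symm c6)
    · rw [hcx, hQe', hQe]
      have h1 : Nat.gcd (b * a) (b * g) = b := by
        rw [Nat.gcd_mul_left, Nat.Coprime.gcd_eq_one c1.symm, mul_one]
      rw [mul_comm a b, mul_comm g b, tqm_cx hb h1]
      ring
    · unfold cx
      rw [Nat.gcd_self, ← pow_two, Nat.div_self (by positivity)]
    · unfold cx
      rw [Nat.gcd_comm Q Q', mul_comm Q Q']
    · unfold cx
      rw [Nat.gcd_one_right]
      simp
  · intro Q hQ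
    obtain ⟨R, hR, hc⟩ := (tqm_mem hN).1 hQ
    have hb := Nat.isCoprime_iff_coprime.2 hc
    obtain ⟨u, v, huv⟩ := hb
    refine ⟨(Q : ℤ) * u, -v, N, Q, ?_, dvd_mul_right _ _, dvd_refl _, dvd_refl _⟩
    rw [hR]
    push_cast
    linear_combination (Q : ℤ) * huv
  · intro Q n A B C D h
    obtain ⟨h1, h2, h3, h4⟩ := h
    refine ⟨by linear_combination h1, h3, h2, (dvd_neg).2 h4⟩
  · intro Q hQ Q' hQ' n A B C D n' A' B' C' D' h h'
    obtain ⟨g, a, b, m, hg, ha, hb, hm, hN', hQe, hQe', hgcd, c1, c2, c3, c4, c5, c6⟩ :=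
      tqm_dec hN hQ hQ'
    have hcx : cx Q Q' = a * b := by
      rw [hQe, hQe']
      rw [hQe, hQe'] at hgcd
      exact tqm_cx hg hgcd
    obtain ⟨d1, ⟨A1, hA⟩, ⟨D1, hD⟩, ⟨C1, hC⟩⟩ := h
    obtain ⟨d1', ⟨A1', hA'⟩, ⟨D1', hD'⟩, ⟨C1', hC'⟩⟩ := h'
    rw [hQe] at hA hD d1
    rw [hQe'] at hA' hD' d1'
    rw [hN'] at hC hC'
    push_cast at hA hD hC hA' hD' hC' d1 d1'
    rw [hgcd, hcx]
    have hg0 : (g : ℤ) ≠ 0 := by exact_mod_cast hg.ne'
    refine ⟨(a : ℤ) * A1 * (g * b * A1') + B * (a * b * m * C1'),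
      a * A1 * B' + B * (b * D1'),
      (a : ℤ) * b * m * C1 * (g * b * A1') + (g * a * D1) * (a * b * m * C1'),
      (a * b * m * C1) * B' + (a * D1) * (g * b * D1'), ⟨?_, ?_, ?_, ?_⟩, ?_, ?_, ?_, ?_⟩
    · have e : ((g : ℤ) * g) * (((a : ℤ) * A1 * (g * b * A1') + B * (a * b * m * C1')) *
          ((a * b * m * C1) * B' + (a * D1) * (g * b * D1')) -
          (a * A1 * B' + B * (b * D1')) *
          ((a : ℤ) * b * m * C1 * (g * b * A1') + (g * a * D1) * (a * b * m * C1'))) =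
          ((g : ℤ) * g) * (n * n' * ((a * b : ℕ) : ℤ)) := by
        push_cast
        have e1 : (A * D - B * C) * (A' * D' - B' * C') = n * (g * a) * (n' * (g * b)) := by
          rw [d1, d1']
        rw [hA, hD, hC, hA', hD', hC'] at e1
        linear_combination e1
      exact mul_left_cancel₀ (mul_ne_zero hg0 hg0) e
    · push_cast
      exact ⟨A1 * (g * A1') + B * (m * C1'), by ring⟩
    · push_cast
      exact ⟨m * C1 * B' + D1 * (g * D1'), by ring⟩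
    · rw [hN']
      push_cast
      exact ⟨C1 * (b * A1') + a * D1 * C1', by ring⟩
    · rw [hA, hA', hC']; ring
    · rw [hA, hD']; ring
    · rw [hC, hA', hD, hC']; ring
    · rw [hC, hD, hD']; ring
  · intro A B C D
    unfold TQ G0
    simp

end Pool.Agent.Helper96.MP
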