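import Pool.Agent.Helper9.MP.Lat
import Pool.Agent.Helper57.MP.HECKE

set_option autoImplicit false

namespace Pool.Agent.Helper96.MP

open Complex

lemma wtl_ne {C D : ℤ} {z : ℂ} (hz : 0 < z.im) (h : ¬ (C = 0 ∧ D = 0)) :
    (C : ℂ) * z + (D : ℂ) ≠ 0 := by
  intro h0
  apply h
  have him : (C : ℝ) * z.im = 0 := by
    have := congrArg Complex.im h0
    simpa using this
  have hr0 : (C : ℝ) = 0 := by
    rcases mul_eq_zero.1 him with h | h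
    · exact h
    · exact absurd h hz.ne'
  have hr1 : C = 0 := by exact_mod_cast hr0
  subst hr1
  have hs0 : (D : ℂ) = 0 := by simpa using h0
  exact ⟨rfl, by exact_mod_cast hs0⟩

/-- passing a Hecke representative through a matrix of type `Q` -/
lemma wtl_pass (hH : ST_HERM) {N Q l : ℕ} (hN : 1 ≤ N) (hQ : Q ∣ N) (hl : l.Prime)
    (hlN : ¬ l ∣ N) {A B C D : ℤ} (hM : TQ N Q 1 A B C D) {t : ℕ × ℕ × ℕ} (ht : t ∈ Tn l) :
    ∃ t' ∈ Tn l, ∃ A2 B2 C2 D2 : ℤ, TQ N Q 1 A2 B2 C2 D2 ∧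
      (t.1 : ℤ) * A + t.2.1 * C = A2 * t'.1 ∧ (t.1 : ℤ) * B + t.2.1 * D = A2 * t'.2.1 + B2 * t'.2.2 ∧
      (t.2.2 : ℤ) * C = C2 * t'.1 ∧ (t.2.2 : ℤ) * D = C2 * t'.2.1 + D2 * t'.2.2 := by
  obtain ⟨hdet, ⟨A1, hA⟩, ⟨D1, hD⟩, ⟨C1, hC⟩⟩ := hM
  obtain ⟨R, hR⟩ := hQ
  obtain ⟨a, b, d⟩ := t
  simp only at *
  have hQp : 0 < Q := by
    rcases Nat.eq_zero_or_pos Q with h | h
    · subst h; simp at hR; omega
    · exact h
  have hQ0 : (Q : ℤ) ≠ 0 := by exact_mod_cast hQp.ne'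
  have had : a * d = l := by
    simp only [Tn, Finset.mem_filter] at ht
    exact ht.2.1
  have hadZ : (a : ℤ) * d = l := by exact_mod_cast had
  rw [hR] at hC
  push_cast at hC
  have hdet1 : (Q : ℤ) * A1 * D1 - B * R * C1 = 1 := by
    have : (Q : ℤ) * ((Q : ℤ) * A1 * D1 - B * R * C1) = (Q : ℤ) * 1 := by
      rw [hA, hD, hC] at hdet
      linear_combination hdet
    exact mul_left_cancel₀ hQ0 this
  have hdet0 : (D1 * (a * A + b * C) - B * d * R * C1) *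
      (-(R * C1 * (a * B + b * D)) + A1 * d * D) -
      (D1 * (a * B + b * D) - B * d * D1) * (R * C1 * (-(a * A + b * C) + A * d)) = ((l : ℕ) : ℤ) := by
    rw [← hadZ, hA, hD, hC]
    linear_combination ((a : ℤ) * d * ((Q : ℤ) * A1 * D1 - B * R * C1 + 1)) * hdet1
  obtain ⟨t', ⟨ht', p', q', r', s', hd1, e1, e2, e3, e4⟩, _⟩ := hH l hl.one_le _ _ _ _ hdet0
  refine ⟨t', ht', A * p' + B * r', A * q' + B * s', C * p' + D * r', C * q' + D * s', ?_, ?_, ?_, ?_, ?_⟩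
  · have hNr : (N : ℤ) ∣ r' := by
      have h1 : (N : ℤ) ∣ r' * (t'.1 : ℤ) := by
        rw [← e3, hR]
        refine ⟨C1 * (-((a : ℤ) * A1 + b * R * C1) + A1 * d), ?_⟩
        push_cast
        rw [hA, hC]
        ring
      have h2 : IsCoprime (N : ℤ) (t'.1 : ℤ) := by
        rw [Nat.isCoprime_iff_coprime]
        have h3 : t'.1 ∣ l := by
          simp only [Tn, Finset.mem_filter] at ht'
          exact ⟨_, ht'.2.1.symm⟩
        exact (Nat.Coprime.coprime_dvd_left h3 ((Nat.Prime.coprime_iff_not_dvd hl).2 hlN)).symm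
      exact h2.dvd_of_dvd_mul_right h1
    have hQN : (Q : ℤ) ∣ (N : ℤ) := by exact_mod_cast (⟨R, hR⟩ : Q ∣ N)
    have hQA : (Q : ℤ) ∣ A := ⟨A1, hA⟩
    have hQD : (Q : ℤ) ∣ D := ⟨D1, hD⟩
    have hNC : (N : ℤ) ∣ C := ⟨C1, by rw [hC, hR]; push_cast; ring⟩
    refine ⟨?_, ?_, ?_, ?_⟩
    · linear_combination (A * D - B * C) * hd1 + hdet
    · exact dvd_add (hQA.mul_right _) ((hQN.trans hNr).mul_left _)
    · exact dvd_add ((hQN.trans hNC).mul_right _) (hQD.mul_right _)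
    · exact dvd_add (hNC.mul_right _) (hNr.mul_left _)
  · have : (A * p' + B * r') * (t'.1 : ℤ) = A * (p' * t'.1) + B * (r' * t'.1) := by ring
    rw [this, ← e1, ← e3]
    rw [hA, hC]
    linear_combination (-(a : ℤ) * Q * A1 - b * (Q * R * C1)) * hdet1
  · have : (A * p' + B * r') * (t'.2.1 : ℤ) + (A * q' + B * s') * (t'.2.2 : ℤ)
        = A * (p' * t'.2.1 + q' * t'.2.2) + B * (r' * t'.2.1 + s' * t'.2.2) := by ring
    rw [this, ← e2, ← e4]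
    rw [hA, hD]
    linear_combination (-(a : ℤ) * B - b * (Q * D1)) * hdet1
  · have : (C * p' + D * r') * (t'.1 : ℤ) = C * (p' * t'.1) + D * (r' * t'.1) := by ring
    rw [this, ← e1, ← e3]
    rw [hA, hD, hC]
    linear_combination (-(d : ℤ) * (Q * R * C1)) * hdet1
  · have : (C * p' + D * r') * (t'.2.1 : ℤ) + (C * q' + D * s') * (t'.2.2 : ℤ)
        = C * (p' * t'.2.1 + q' * t'.2.2) + D * (r' * t'.2.1 + s' * t'.2.2) := by ring
    rw [this, ← e2, ← e4]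
    rw [hD, hC]
    linear_combination (-(d : ℤ) * (Q * D1)) * hdet1

lemma wtl_inj (hT : ST_TQM) (hH : ST_HERM) {N Q l : ℕ} (hN : 1 ≤ N) (hQ : Q ∈ UD N) (hl : l.Prime)
    {A B C D : ℤ} (hM : TQ N Q 1 A B C D) {t1 t2 t' : ℕ × ℕ × ℕ} (ht1 : t1 ∈ Tn l)
    (ht2 : t2 ∈ Tn l) {A2 B2 C2 D2 A3 B3 C3 D3 : ℤ} (h2 : TQ N Q 1 A2 B2 C2 D2)
    (h3 : TQ N Q 1 A3 B3 C3 D3)
    (a1 : (t1.1 : ℤ) * A + t1.2.1 * C = A2 * t'.1)
    (a2 : (t1.1 : ℤ) * B + t1.2.1 * D = A2 * t'.2.1 + B2 * t'.2.2)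
    (a3 : (t1.2.2 : ℤ) * C = C2 * t'.1) (a4 : (t1.2.2 : ℤ) * D = C2 * t'.2.1 + D2 * t'.2.2)
    (b1 : (t2.1 : ℤ) * A + t2.2.1 * C = A3 * t'.1)
    (b2 : (t2.1 : ℤ) * B + t2.2.1 * D = A3 * t'.2.1 + B3 * t'.2.2)
    (b3 : (t2.2.2 : ℤ) * C = C3 * t'.1) (b4 : (t2.2.2 : ℤ) * D = C3 * t'.2.1 + D3 * t'.2.2) :
    t1 = t2 := by
  obtain ⟨⟨_, hcx⟩, _, hadj, hmul, h11⟩ := hT N hN
  have hQp : 0 < Q := by
    have := (Finset.mem_filter.1 hQ).1
    exact Nat.pos_of_mem_divisors this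
  have hQ0 : (Q : ℤ) ≠ 0 := by exact_mod_cast hQp.ne'
  obtain ⟨p, q, r, s, hd, e1, e2, e3, e4⟩ := hmul Q hQ Q hQ 1 A2 B2 C2 D2 1 _ _ _ _ h2
    (hadj Q 1 A3 B3 C3 D3 h3)
  rw [(hcx Q hQ Q hQ).2.2.1, mul_one, h11] at hd
  rw [Nat.gcd_self] at e1 e2 e3 e4
  obtain ⟨hdet, _⟩ := hd
  have hM2 := hM.1
  have h22 := h2.1
  have h33 := h3.1
  -- δ M3 = M2
  have f1 : p * A3 + q * C3 = A2 := by
    have : (Q : ℤ) * (p * A3 + q * C3) = Q * A2 := by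
      linear_combination (-A3) * e1 - C3 * e2 + A2 * h33
    exact mul_left_cancel₀ hQ0 this
  have f2 : p * B3 + q * D3 = B2 := by
    have : (Q : ℤ) * (p * B3 + q * D3) = Q * B2 := by
      linear_combination (-B3) * e1 - D3 * e2 + B2 * h33
    exact mul_left_cancel₀ hQ0 this
  have f3 : r * A3 + s * C3 = C2 := by
    have : (Q : ℤ) * (r * A3 + s * C3) = Q * C2 := by
      linear_combination (-A3) * e3 - C3 * e4 + C2 * h33
    exact mul_left_cancel₀ hQ0 this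
  have f4 : r * B3 + s * D3 = D2 := by
    have : (Q : ℤ) * (r * B3 + s * D3) = Q * D2 := by
      linear_combination (-B3) * e3 - D3 * e4 + D2 * h33
    exact mul_left_cancel₀ hQ0 this
  -- t1 = δ t2
  have m1 : (t1.1 : ℤ) * A + t1.2.1 * C = (p * t2.1) * A + (p * t2.2.1 + q * t2.2.2) * C := by
    linear_combination a1 - p * b1 - q * b3 - (t'.1 : ℤ) * f1
  have m2 : (t1.1 : ℤ) * B + t1.2.1 * D = (p * t2.1) * B + (p * t2.2.1 + q * t2.2.2) * D := by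
    linear_combination a2 - p * b2 - q * b4 - (t'.2.1 : ℤ) * f1 - (t'.2.2 : ℤ) * f2
  have m3 : (t1.2.2 : ℤ) * C = (r * t2.1) * A + (r * t2.2.1 + s * t2.2.2) * C := by
    linear_combination a3 - r * b1 - s * b3 - (t'.1 : ℤ) * f3
  have m4 : (t1.2.2 : ℤ) * D = (r * t2.1) * B + (r * t2.2.1 + s * t2.2.2) * D := by
    linear_combination a4 - r * b2 - s * b4 - (t'.2.1 : ℤ) * f3 - (t'.2.2 : ℤ) * f4
  have k1 : (t1.1 : ℤ) = p * t2.1 := by
    have : (Q : ℤ) * (t1.1 : ℤ) = Q * (p * t2.1) := by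
      linear_combination D * m1 - C * m2 - ((t1.1 : ℤ) - p * t2.1) * hM2
    exact mul_left_cancel₀ hQ0 this
  have k2 : (t1.2.1 : ℤ) = p * t2.2.1 + q * t2.2.2 := by
    have : (Q : ℤ) * (t1.2.1 : ℤ) = Q * (p * t2.2.1 + q * t2.2.2) := by
      linear_combination A * m2 - B * m1 - ((t1.2.1 : ℤ) - (p * t2.2.1 + q * t2.2.2)) * hM2
    exact mul_left_cancel₀ hQ0 this
  have k3 : (0 : ℤ) = r * t2.1 := by
    have : (Q : ℤ) * 0 = Q * (r * t2.1) := by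
      linear_combination D * m3 - C * m4 + (r * t2.1) * hM2
    exact mul_left_cancel₀ hQ0 this
  have k4 : (t1.2.2 : ℤ) = r * t2.2.1 + s * t2.2.2 := by
    have : (Q : ℤ) * (t1.2.2 : ℤ) = Q * (r * t2.2.1 + s * t2.2.2) := by
      linear_combination A * m4 - B * m3 - ((t1.2.2 : ℤ) - (r * t2.2.1 + s * t2.2.2)) * hM2
    exact mul_left_cancel₀ hQ0 this
  have hdl : (t1.1 : ℤ) * (t1.2.2 : ℤ) - (t1.2.1 : ℤ) * 0 = (l : ℤ) := by
    simp only [Tn, Finset.mem_filter] at ht1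
    have := ht1.2.1
    rw [mul_zero, sub_zero]
    exact_mod_cast this
  obtain ⟨t0, _, huniq⟩ := hH l hl.one_le _ _ _ _ hdl
  have u1 := huniq t1 ⟨ht1, 1, 0, 0, 1, by norm_num, by ring, by ring, by ring, by ring⟩
  have u2 := huniq t2 ⟨ht2, p, q, r, s, hdet, k1, k2, k3, k4⟩
  rw [u1, u2]

theorem wtl_hecke {N l : ℕ} {b : ℕ → ℂ} (hl : l.Prime) (hb : Cusp N b) {z : ℂ} (hz : 0 < z.im) :
    qs (Tl l b) z = heckeG l (qs b) z := (hecke_hasSum hl hb hz).tsum_eq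

theorem st_WTL (hT : ST_TQM) (hH : ST_HERM) : ST_WTL := by
  intro N Q l b c hN hQ hl hlN hb hc hAL A B C D hM z hz
  have hz' : 0 < z.im := hz
  have hQN : Q ∣ N := Nat.dvd_of_mem_divisors (Finset.mem_filter.1 hQ).1
  have hQp : 0 < Q := Nat.pos_of_mem_divisors (Finset.mem_filter.1 hQ).1
  have hCD : ¬ (C = 0 ∧ D = 0) := by
    rintro ⟨h1, h2⟩
    have := hM.1
    rw [h1, h2] at this
    simp at this
    omega
  have hj := wtl_ne hz' hCD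
  have hmo : 0 < (mo A B C D z).im := by
    rw [Lib.mo_im _ _ _ _ _ hj, hM.1]
    have : (0 : ℝ) < ((1 * (Q : ℤ) : ℤ) : ℝ) := by
      rw [one_mul]; exact_mod_cast hQp
    positivity
  rw [wtl_hecke hl hc hz', wtl_hecke hl hb hmo]
  -- the permutation
  choose! f hf g1 g2 g3 g4 hg using fun (t : ℕ × ℕ × ℕ) (ht : t ∈ Tn l) =>
    wtl_pass hH hN hQN hl hlN hM ht
  have hinj : Set.InjOn f (Tn l : Set (ℕ × ℕ × ℕ)) := by
    intro t1 ht1 t2 ht2 h12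
    have ha := hg t1 ht1
    have hb' := hg t2 ht2
    obtain ⟨x0, x1, x2, x3, x4⟩ := ha
    obtain ⟨y0, y1, y2, y3, y4⟩ := hb'
    rw [← h12] at y1 y2 y3 y4
    exact wtl_inj hT hH hN hQ hl hM ht1 ht2 x0 y0 x1 x2 x3 x4 y1 y2 y3 y4
  have himg : (Tn l).image f = Tn l := by
    apply Finset.eq_of_subset_of_card_le
    · intro x hx
      obtain ⟨t, ht, rfl⟩ := Finset.mem_image.1 hx
      exact hf t ht
    · rw [Finset.card_image_of_injOn hinj]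
  have hsum : heckeG l (qs c) z = ∑ t ∈ Tn l, ((l : ℂ) / ((f t).2.2 : ℂ) ^ 2) *
      qs c ((((f t).1 : ℂ) * z + ((f t).2.1 : ℂ)) / ((f t).2.2 : ℂ)) := by
    unfold heckeG
    conv_lhs => rw [← himg]
    rw [Finset.sum_image hinj]
  rw [hsum, heckeG, Finset.mul_sum]
  refine Finset.sum_congr rfl fun t ht => ?_
  obtain ⟨x0, x1, x2, x3, x4⟩ := hg t ht
  have hft := hf t ht
  have hpos : ∀ u ∈ Tn l, 0 < u.1 ∧ 0 < u.2.2 := by
    intro u hu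
    simp only [Tn, Finset.mem_filter] at hu
    have h1 := hu.2.1
    constructor
    · rcases Nat.eq_zero_or_pos u.1 with h | h
      · rw [h, zero_mul] at h1
        exact absurd h1.symm hl.ne_zero
      · exact h
    · rcases Nat.eq_zero_or_pos u.2.2 with h | h
      · rw [h, mul_zero] at h1
        exact absurd h1.symm hl.ne_zero
      · exact h
  obtain ⟨p1, p2⟩ := hpos t ht
  obtain ⟨p3, p4⟩ := hpos _ hft
  have c1 : (t.1 : ℂ) * A + t.2.1 * C = (g1 t : ℂ) * ((f t).1 : ℂ) := by exact_mod_cast x1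
  have c2 : (t.1 : ℂ) * B + t.2.1 * D = (g1 t : ℂ) * ((f t).2.1 : ℂ) + (g2 t : ℂ) * ((f t).2.2 : ℂ) := by
    exact_mod_cast x2
  have c3 : (t.2.2 : ℂ) * C = (g3 t : ℂ) * ((f t).1 : ℂ) := by exact_mod_cast x3
  have c4 : (t.2.2 : ℂ) * D = (g3 t : ℂ) * ((f t).2.1 : ℂ) + (g4 t : ℂ) * ((f t).2.2 : ℂ) := by
    exact_mod_cast x4
  have hd : (t.2.2 : ℂ) ≠ 0 := by exact_mod_cast p2.ne'
  have hd' : ((f t).2.2 : ℂ) ≠ 0 := by exact_mod_cast p4.ne'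
  set w : ℂ := (((f t).1 : ℂ) * z + ((f t).2.1 : ℂ)) / ((f t).2.2 : ℂ) with hw
  have hwim : w ∈ UH := by
    show 0 < w.im
    rw [hw, Complex.div_natCast_im]
    have : ((((f t).1 : ℂ) * z + ((f t).2.1 : ℂ))).im = ((f t).1 : ℝ) * z.im := by simp
    rw [this]
    have h1 : (0 : ℝ) < ((f t).1 : ℝ) := by exact_mod_cast p3
    have h2 : (0 : ℝ) < ((f t).2.2 : ℝ) := by exact_mod_cast p4
    positivity
  have hwd : w * ((f t).2.2 : ℂ) = ((f t).1 : ℂ) * z + ((f t).2.1 : ℂ) := by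
    rw [hw, div_mul_cancel₀ _ hd']
  have k1 : ((g3 t : ℂ) * w + (g4 t : ℂ)) * ((f t).2.2 : ℂ) = (t.2.2 : ℂ) * ((C : ℂ) * z + D) := by
    have : ((g3 t : ℂ) * w + (g4 t : ℂ)) * ((f t).2.2 : ℂ)
      = (g3 t : ℂ) * (w * ((f t).2.2 : ℂ)) + (g4 t : ℂ) * ((f t).2.2 : ℂ) := by ring
    rw [this, hwd]
    linear_combination (-z) * c3 - c4
  have k2 : ((g1 t : ℂ) * w + (g2 t : ℂ)) * ((f t).2.2 : ℂ)
      = (t.1 : ℂ) * ((A : ℂ) * z + B) + (t.2.1 : ℂ) * ((C : ℂ) * z + D) := by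
    have : ((g1 t : ℂ) * w + (g2 t : ℂ)) * ((f t).2.2 : ℂ)
      = (g1 t : ℂ) * (w * ((f t).2.2 : ℂ)) + (g2 t : ℂ) * ((f t).2.2 : ℂ) := by ring
    rw [this, hwd]
    linear_combination (-z) * c1 - c2
  have k3 : (g3 t : ℂ) * w + (g4 t : ℂ) = (t.2.2 : ℂ) * ((C : ℂ) * z + D) / ((f t).2.2 : ℂ) := by
    rw [eq_div_iff hd', k1]
  have k4 : (g1 t : ℂ) * w + (g2 t : ℂ) = ((t.1 : ℂ) * ((A : ℂ) * z + B) + (t.2.1 : ℂ) * ((C : ℂ) * z + D))
      / ((f t).2.2 : ℂ) := by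
    rw [eq_div_iff hd', k2]
  have hmow : mo (g1 t) (g2 t) (g3 t) (g4 t) w
      = ((t.1 : ℂ) * mo A B C D z + (t.2.1 : ℂ)) / (t.2.2 : ℂ) := by
    unfold mo
    have e : ((A : ℂ) * z + B) / ((C : ℂ) * z + D) * ((C : ℂ) * z + D) = (A : ℂ) * z + B :=
      div_mul_cancel₀ _ hj
    rw [k3, k4, div_div_div_cancel_right₀ hd', div_eq_div_iff (mul_ne_zero hd hj) hd]
    linear_combination (-(t.2.2 : ℂ) * (t.1 : ℂ)) * e
  rw [hAL _ _ _ _ x0 w hwim, hmow, k3]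
  field_simp

end Pool.Agent.Helper96.MP
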